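import Pool.Agent.X218.OT.Val
import Pool.Agent.Y682.XF.ValC
import Pool.Agent.Y109.XF.LF
import Pool.Agent.Y687.Lfin
import Pool.Agent.Y702.A.Stm

/-!
# The `L`-function of `E_D ⊗ M` for a lattice over a field of odd degree
-/

set_option autoImplicit false
set_option linter.style.haveILetI false

open Finset NumberField IsCyclotomicExtension.Rat H300.HW

namespace Pool.Agent.X218.OT

open scoped Classical

open Pool.Agent.W97.MT (ap E14 II affCount)

open Pool.Agent.Y687 (Symb Symb2)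

open Pool.Agent.Y700 (WM)

open Pool.Agent.Y682.XT hiding pts

open Pool.Agent.Y682.XD

open Pool.Agent.Y682.XF

open Pool.Agent.Y702.A (S_REP)

/-! ### The discriminant and the numbers `a_p` of the twist -/

/-- the discriminant -/
lemma wm_disc {D : ℤ} (hD : D % 4 = 1) : (WM D).Δ = -(2 ^ 6 * 7 ^ 3 * D ^ 6) := by
  obtain ⟨k, rfl⟩ : ∃ k, D = 4 * k + 1 := ⟨D / 4, by omega⟩
  have e1 : (4 * k + 1 - 1) / 4 = k := by omega
  have e2 : (9 * (4 * k + 1) ^ 2 - 1) / 2 = 72 * k ^ 2 + 36 * k + 4 := by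
    have : 9 * (4 * k + 1) ^ 2 - 1 = 2 * (72 * k ^ 2 + 36 * k + 4) := by ring
    rw [this]
    omega
  have e3 : (23 * (4 * k + 1) ^ 3 + 1) / 4 = 23 * (16 * k ^ 3 + 12 * k ^ 2 + 3 * k) + 6 := by
    have : 23 * (4 * k + 1) ^ 3 + 1 = 4 * (23 * (16 * k ^ 3 + 12 * k ^ 2 + 3 * k) + 6) := by ring
    rw [this]
    omega
  unfold WM WeierstrassCurve.Δ WeierstrassCurve.b₂ WeierstrassCurve.b₄ WeierstrassCurve.b₆
    WeierstrassCurve.b₈
  rw [e1, e2, e3]
  ring

/-- the number `a_p` of the twist -/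
noncomputable def aD (D : ℤ) (p : ℕ) : ℤ := (p : ℤ) - Pool.Agent.Y682.XF.pts (WM D) (ZMod p)

theorem aD_eq {D : ℤ} (hD : D % 4 = 1) {p : ℕ} (hp : p.Prime) : aD D p = kr D p * ap E14 p := by
  have hfp : Fact p.Prime := ⟨hp⟩
  have hap : ap E14 p = (p : ℤ) - Pool.Agent.Y682.XT.pts (ZMod p) := rfl
  unfold aD
  by_cases hp2 : p = 2
  · subst hp2
    unfold kr
    rw [if_pos rfl]
    by_cases h8 : D % 8 = 1
    · rw [if_pos h8, one_mul, hap, Pool.Agent.Y109.XF.even_one D h8]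
    · have h5 := Pool.Agent.Y109.XF.even_five D (by omega) (ZMod 2)
      rw [ZMod.card] at h5
      rw [if_neg h8, h5, Pool.Agent.Y687.ap2]
      norm_num
  · have hk : ringChar (ZMod p) ≠ 2 := by rw [ZMod.ringChar_zmod_n]; exact hp2
    unfold kr
    rw [if_neg hp2]
    by_cases h0 : ((D : ℤ) : ZMod p) = 0
    · have h5 := Pool.Agent.Y109.XF.odd_zero D hD (ZMod p) hk h0
      rw [ZMod.card] at h5
      rw [h5, ← jacobiSym.legendreSym.to_jacobiSym, (legendreSym.eq_zero_iff p D).2 h0, zero_mul]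
    · have h5 := Pool.Agent.Y109.XF.odd_unit D hD (ZMod p) hk h0
      rw [ZMod.card] at h5
      rw [h5, ← jacobiSym.legendreSym.to_jacobiSym, hap]
      rfl

/-- the quadratic character -/
lemma kr_zero {D : ℤ} (hD : D % 4 = 1) {p : ℕ} (hp : p.Prime) (h : (p : ℤ) ∣ D) : kr D p = 0 := by
  have hfp : Fact p.Prime := ⟨hp⟩
  have hp2 : p ≠ 2 := by
    rintro rfl
    push_cast at h
    omega
  unfold kr
  rw [if_neg hp2, ← jacobiSym.legendreSym.to_jacobiSym, legendreSym.eq_zero_iff]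
  rwa [ZMod.intCast_zmod_eq_zero_iff_dvd]

lemma kr_one {D : ℤ} {p : ℕ} (hp : p.Prime) (h : ¬ (p : ℤ) ∣ D) : kr D p = 1 ∨ kr D p = -1 := by
  have hfp : Fact p.Prime := ⟨hp⟩
  unfold kr
  split_ifs with h1 h2
  · exact Or.inl rfl
  · exact Or.inr rfl
  · rw [← jacobiSym.legendreSym.to_jacobiSym]
    apply legendreSym.eq_one_or_neg_one
    rwa [Ne, ZMod.intCast_zmod_eq_zero_iff_dvd]

section defs

variable {m g : ℕ} (ρ : (ZMod m)ˣ →* GL (Fin g) ℤ)

/-- the action of the Frobenius automorphism at `p` -/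
noncomputable def fr (p : ℕ) : Matrix (Fin g) (Fin g) ℤ :=
  if h : p.Coprime m then (ρ (ZMod.unitOfCoprime p h) : Matrix (Fin g) (Fin g) ℤ) else 0

/-- `det (1 - a_p T ρ(p) + p T² ρ(p)²)` -/
noncomputable def EPol (D : ℤ) (p : ℕ) (T : ℂ) : ℂ :=
  (1 - ((aD D p : ℂ) * T) • (fr ρ p).map (Int.cast : ℤ → ℂ) +
    ((p : ℂ) * T ^ 2) • ((fr ρ p).map (Int.cast : ℤ → ℂ)) ^ 2).det

/-- `det (1 - a_p / p ρ(p))` -/
noncomputable def bd (D : ℤ) (p : ℕ) : ℝ :=
  (1 - ((aD D p : ℝ) / p) • (fr ρ p).map (Int.cast : ℤ → ℝ)).det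

end defs

/-! ### The characters of the lattice -/

section chars

variable {q : ℕ} [NeZero q] {L : Type} [Field L] [NumberField L] [IsCyclotomicExtension {q} ℚ L]
  {K : IntermediateField ℚ L}

lemma rep_chars (hR : S_REP) {g : ℕ} (ρ : (ZMod q)ˣ →* GL (Fin g) ℤ)
    (hρ : ∀ u ∈ HH q L K, ρ u = 1)
    (hfix : ∀ v : Fin g → ℤ, (∀ u, (ρ u : Matrix (Fin g) (Fin g) ℤ).mulVec v = v) → v = 0)
    [Fintype (GG q L K)] :
    ∃ ψ : Fin g → (GG q L K →* ℂˣ),
      (∀ (x y : ℂ) (u : (ZMod q)ˣ),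
        (1 - x • ((ρ u : Matrix (Fin g) (Fin g) ℤ).map (Int.cast : ℤ → ℂ)) +
          y • ((ρ u : Matrix (Fin g) (Fin g) ℤ).map (Int.cast : ℤ → ℂ)) ^ 2).det =
            ∏ i, (1 - x * cf q L K (ψ i) (u : ZMod q) + y * cf q L K (ψ i) (u : ZMod q) ^ 2)) ∧
      (∀ i, ψ i ≠ 1) ∧
      ∀ a : ℕ, a.Coprime (Fintype.card (GG q L K)) →
        ∃ π : Equiv.Perm (Fin g), ∀ i, ψ i ^ a = ψ (π i) := by
  obtain ⟨χ, hχ1, hχ2, hχ3, hχ4⟩ := hR q g ρ
  have hmem : ∀ i, χ i ∈ YY q L K := by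
    have h1 := hχ3 (HH q L K)
    have h2 : (⨅ u : HH q L K, LinearMap.ker (Matrix.toLin'
        ((ρ (u : (ZMod q)ˣ) : Matrix (Fin g) (Fin g) ℤ) - 1)) : Submodule ℤ (Fin g → ℤ)) = ⊤ := by
      rw [iInf_eq_top]
      intro u
      rw [hρ u u.2, Units.val_one, sub_self, map_zero, LinearMap.ker_zero]
    rw [h2, finrank_top, Module.finrank_fin_fun] at h1
    intro i
    rw [mem_YY]
    intro σ hσ
    by_contra hne
    have h3 : ¬ ∀ u ∈ HH q L K, χ i (u : ZMod q) = 1 := by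
      intro h
      apply hne
      apply h
      rw [mem_HH, MulEquiv.symm_apply_apply]
      exact hσ
    have h4 := Fintype.card_subtype_lt (p := fun i : Fin g => ∀ u ∈ HH q L K,
      χ i (u : ZMod q) = 1) h3
    rw [Nat.card_eq_fintype_card] at h1
    rw [Fintype.card_fin] at h4
    omega
  have hne : ∀ i, χ i ≠ 1 := by
    have h1 := hχ3 ⊤
    have h2 : (⨅ u : (⊤ : Subgroup (ZMod q)ˣ), LinearMap.ker (Matrix.toLin'
        ((ρ (u : (ZMod q)ˣ) : Matrix (Fin g) (Fin g) ℤ) - 1)) : Submodule ℤ (Fin g → ℤ)) = ⊥ := by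
      rw [eq_bot_iff]
      intro v hv
      rw [Submodule.mem_iInf] at hv
      rw [Submodule.mem_bot]
      apply hfix
      intro u
      have h3 := hv ⟨u, Subgroup.mem_top u⟩
      rw [LinearMap.mem_ker, Matrix.toLin'_apply, Matrix.sub_mulVec, Matrix.one_mulVec,
        sub_eq_zero] at h3
      exact h3
    rw [h2, finrank_bot] at h1
    intro i hi
    have h3 : 0 < Nat.card {i : Fin g // ∀ u ∈ (⊤ : Subgroup (ZMod q)ˣ),
        χ i (u : ZMod q) = 1} := by
      have : Nonempty {i : Fin g // ∀ u ∈ (⊤ : Subgroup (ZMod q)ˣ), χ i (u : ZMod q) = 1} :=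
        ⟨⟨i, fun u _ => by rw [hi, MulChar.one_apply_coe]⟩⟩
      exact Nat.card_pos
    omega
  choose ψ hψ using fun i => cf_surj (hmem i)
  refine ⟨ψ, ?_, ?_, ?_⟩
  · intro x y u
    rw [hχ1]
    refine prod_congr rfl fun i _ => ?_
    rw [hψ]
  · intro i h
    apply hne i
    rw [← hψ, h, cf_one]
  · intro a ha
    obtain ⟨π, hπ⟩ := hχ2 a (Fintype.card (GG q L K)) ha (by
      intro u
      rw [← map_pow]
      apply hρ
      rw [← mkG_one, map_pow, pow_card_eq_one])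
    refine ⟨π, fun i => cf_inj ?_⟩
    rw [cf_pow, hψ, hψ, hπ]

end chars

section main

variable {q d : ℕ} [NeZero q] [NeZero d] [NeZero (q * d)] {L : Type} [Field L] [NumberField L]
  [IsCyclotomicExtension {q} ℚ L] {K : IntermediateField ℚ L}

/-- the value of a primitive character at a prime -/
lemma prim_cop (χ : DirichletCharacter ℂ q) {p : ℕ} (hp : Nat.Coprime p q) :
    χ.primitiveCharacter ((p : ℕ) : ZMod χ.conductor) = χ (p : ZMod q) := by
  have h := prim_unit χ (ZMod.unitOfCoprime p hp)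
  rw [ZMod.coe_unitOfCoprime] at h
  rw [h, ZMod.unitsMap_val, ZMod.coe_unitOfCoprime]
  rw [ZMod.cast_natCast χ.conductor_dvd_level]

lemma prim_dvd (hqp : IsPrimePow q) {χ : DirichletCharacter ℂ q} (hχ : χ ≠ 1) {p : ℕ}
    (hp : p.Prime) (hpq : p ∣ q) : χ.primitiveCharacter ((p : ℕ) : ZMod χ.conductor) = 0 := by
  apply MulChar.map_nonunit
  rw [ZMod.isUnit_iff_coprime]
  intro h1
  have h2 : χ.conductor ≠ 1 := fun h => hχ ((χ.eq_one_iff_conductor_eq_one).2 h)
  obtain ⟨l, hl, hl2⟩ := Nat.exists_prime_and_dvd h2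
  have hlq : l ∣ q := hl2.trans χ.conductor_dvd_level
  obtain ⟨r, k, hr, hk, rfl⟩ := hqp
  have hr' := hr.nat_prime
  have e1 : l = r := (Nat.prime_dvd_prime_iff_eq hl hr').1 (hl.dvd_of_dvd_pow hlq)
  have e2 : p = r := (Nat.prime_dvd_prime_iff_eq hp hr').1 (hp.dvd_of_dvd_pow hpq)
  rw [e1.trans e2.symm] at hl2
  exact hp.one_lt.ne' (Nat.Coprime.eq_one_of_dvd h1 hl2)

/-- the factors at two and seven do not vanish -/
lemma fac_ne {χ : DirichletCharacter ℂ q} {D : ℤ} (hD4 : D % 4 = 1) {p : ℕ} (hp : p = 2 ∨ p = 7)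
    (hpD : ¬ (p : ℤ) ∣ D) {s : ℂ} (hs : 0 < s.re) :
    1 - (aD D p : ℂ) * χ (p : ZMod q) * (p : ℂ) ^ (-s) ≠ 0 := by
  have hpp : p.Prime := by rcases hp with rfl | rfl <;> norm_num
  have h1 : aD D p = 1 ∨ aD D p = -1 := by
    rw [aD_eq hD4 hpp]
    have h2 := kr_one hpp hpD
    rcases hp with rfl | rfl
    · rw [Pool.Agent.Y687.ap2]
      rcases h2 with h2 | h2 <;> rw [h2] <;> norm_num
    · rw [Pool.Agent.Y687.ap7]
      rcases h2 with h2 | h2 <;> rw [h2] <;> norm_num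
  have h2 : ‖(aD D p : ℂ)‖ = 1 := by
    rcases h1 with h1 | h1 <;> rw [h1] <;> simp
  have h3 : ‖(p : ℂ) ^ (-s)‖ < 1 := by
    rw [Complex.norm_natCast_cpow_of_pos hpp.pos, Complex.neg_re]
    apply Real.rpow_lt_one_of_one_lt_of_neg
    · exact_mod_cast hpp.one_lt
    · linarith
  have h4 : ‖(aD D p : ℂ) * χ (p : ZMod q) * (p : ℂ) ^ (-s)‖ < 1 := by
    rw [norm_mul, norm_mul, h2, one_mul]
    calc ‖χ (p : ZMod q)‖ * ‖(p : ℂ) ^ (-s)‖ ≤ 1 * ‖(p : ℂ) ^ (-s)‖ :=
          mul_le_mul_of_nonneg_right (DirichletCharacter.norm_le_one χ _) (norm_nonneg _)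
      _ < 1 := by rw [one_mul]; exact h3
  intro h5
  rw [sub_eq_zero] at h5
  rw [← h5, norm_one] at h4
  exact lt_irrefl _ h4

/-- `det (1 - a_p / p ρ(p))` as a product over the characters -/
lemma bd_prod {g : ℕ} (ρ : (ZMod q)ˣ →* GL (Fin g) ℤ) {ψ : Fin g → (GG q L K →* ℂˣ)}
    (hdet : ∀ (x y : ℂ) (u : (ZMod q)ˣ),
        (1 - x • ((ρ u : Matrix (Fin g) (Fin g) ℤ).map (Int.cast : ℤ → ℂ)) +
          y • ((ρ u : Matrix (Fin g) (Fin g) ℤ).map (Int.cast : ℤ → ℂ)) ^ 2).det =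
            ∏ i, (1 - x * cf q L K (ψ i) (u : ZMod q) + y * cf q L K (ψ i) (u : ZMod q) ^ 2))
    (D : ℤ) {p : ℕ} (hpm : p.Coprime q) :
    ((bd ρ D p : ℝ) : ℂ) = ∏ i, (1 - (aD D p : ℂ) * cf q L K (ψ i) ((p : ℕ) : ZMod q) / p) := by
  have h3 := hdet ((aD D p : ℂ) / p) 0 (ZMod.unitOfCoprime p hpm)
  rw [zero_smul, add_zero] at h3
  unfold bd fr
  rw [dif_pos hpm]
  have h5 : ((((1 - ((aD D p : ℝ) / p) •
      (ρ (ZMod.unitOfCoprime p hpm) : Matrix (Fin g) (Fin g) ℤ).map (Int.cast : ℤ → ℝ)).det :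
        ℝ)) : ℂ) = (1 - ((aD D p : ℂ) / p) •
      (ρ (ZMod.unitOfCoprime p hpm) : Matrix (Fin g) (Fin g) ℤ).map (Int.cast : ℤ → ℂ)).det := by
    have h6 := RingHom.map_det Complex.ofRealHom (1 - ((aD D p : ℝ) / p) •
      (ρ (ZMod.unitOfCoprime p hpm) : Matrix (Fin g) (Fin g) ℤ).map (Int.cast : ℤ → ℝ))
    rw [Complex.ofRealHom_eq_coe] at h6
    rw [h6]
    congr 1
    ext i j
    simp only [RingHom.mapMatrix_apply, Matrix.map_apply, Matrix.sub_apply, Matrix.smul_apply,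
      smul_eq_mul, map_sub, map_mul, map_div₀, Complex.ofRealHom_eq_coe,
      Complex.ofReal_intCast, Complex.ofReal_natCast, Matrix.one_apply]
    split_ifs <;> simp
  rw [h5, h3]
  refine Finset.prod_congr rfl fun i _ => ?_
  rw [ZMod.coe_unitOfCoprime]
  ring

/-- **the `L`-function of `E_D ⊗ M` and its value at `1`** -/
theorem an_main (hR : S_REP) (hKD : S_KD) (hH : S_HECKE) (hPR : S_PRIM)
    {s t : ℚ → ℤ} {Op Om : ℝ} (hSy : Sy s t Op Om)
    (hK : HypK s (fun l => ap E14 l) q L K) (hqp : IsPrimePow q) {D : ℤ}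
    (hDsq : Squarefree D) (hD4 : D % 4 = 1) (hD : D.natAbs = d)
    (hd : ∀ p : ℕ, p.Prime → p ∣ d → ¬ p ∣ 14 * q ∧ ∀ t : (ZMod q)ˣ, (t : ZMod q) = (p : ZMod q) →
      ∀ x : GG q L K, x ∈ Subgroup.zpowers (mkG q L K t))
    {g : ℕ} (ρ : (ZMod q)ˣ →* GL (Fin g) ℤ) (hρ : ∀ u ∈ HH q L K, ρ u = 1)
    (hfix : ∀ v : Fin g → ℤ, (∀ u, (ρ u : Matrix (Fin g) (Fin g) ℤ).mulVec v = v) → v = 0) :
    ∃ H : ℂ → ℂ, Differentiable ℂ H ∧
      (∀ z : ℂ, 3 / 2 < z.re → HasProd (fun p : Nat.Primes =>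
        if ((p : ℕ) : ℤ) ∣ q * (WM D).Δ then 1 else (EPol ρ D p (((p : ℕ) : ℂ) ^ (-z)))⁻¹) (H z)) ∧
      analyticOrderAt H 1 = 0 ∧
      ∃ r : ℚ, r ≠ 0 ∧ padicValRat 2 r = 0 ∧
        H 1 = (r : ℂ) * (((2 * (if 0 < D then Op else Om) / √|(D : ℝ)|) ^ g *
          ∏ p ∈ (WM D).Δ.natAbs.primeFactors, bd ρ D p : ℝ) : ℂ) := by
  have hd0 : d ≠ 0 := NeZero.ne d
  have hD0 : D ≠ 0 := by
    rintro rfl
    norm_num at hD4
  have hdsq : Squarefree d := by rw [← hD]; exact Int.squarefree_natAbs.2 hDsq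
  have hqd : q.Coprime d := by
    refine Nat.coprime_of_dvd ?_
    intro p hp hpq hpd
    exact (hd p hp hpd).1 (dvd_mul_of_dvd_right hpq _)
  have hd14 : d.Coprime 14 := by
    refine Nat.coprime_of_dvd ?_
    intro p hp hpd hp14
    exact (hd p hp hpd).1 (dvd_mul_of_dvd_left hp14 _)
  obtain ⟨δ, hδp, hδk, hδ1, hδj⟩ := hKD D hDsq hD4 d hD.symm
  have hδ : ∀ u : (ZMod d)ˣ, δ (u : ZMod d) = 1 ∨ δ (u : ZMod d) = -1 := by
    intro u
    rw [hδj u]
    have hco : IsCoprime (((u : ZMod d).val : ℤ)) (d : ℤ) :=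
      Nat.isCoprime_iff_coprime.2 (ZMod.val_coe_unit_coprime u)
    rcases jacobiSym.trichotomy ((u : ZMod d).val : ℤ) d with h | h | h
    · exfalso
      rw [jacobiSym.eq_zero_iff_not_coprime] at h
      exact h (Int.isCoprime_iff_gcd_eq_one.1 hco)
    · left; rw [h]; push_cast; rfl
    · right; rw [h]; push_cast; rfl
  have hco : (q * d).Coprime 14 := Nat.Coprime.mul_left hK.hco hd14
  obtain ⟨G, hG⟩ := exists_GG hco
  have hfG : Fintype (GG q L K) := Fintype.ofFinite _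
  obtain ⟨ψ, hdet, hψ1, hst⟩ := rep_chars (L := L) (K := K) hR ρ hρ hfix
  obtain ⟨r, hr0, hrv, hval⟩ := val_F hH hPR hSy hK hqp hD hdsq hd hδp hδ1 hδ
    (fun χ => (hG χ).2.2) ψ hψ1 hst
  set χ : Fin g → DirichletCharacter ℂ q := fun i => cf q L K (ψ i) with hχ
  have hχ1 : ∀ i, χ i ≠ 1 := fun i h => hψ1 i (cf_inj (h.trans cf_one.symm))
  -- the primes two and seven
  set P2 : Nat.Primes := ⟨2, Nat.prime_two⟩ with hP2
  set P7 : Nat.Primes := ⟨7, by norm_num⟩ with hP7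
  set S : Finset Nat.Primes := {P2, P7} with hS
  have hmemS : ∀ p : Nat.Primes, p ∈ S ↔ ((p : ℕ) = 2 ∨ (p : ℕ) = 7) := by
    intro p
    rw [hS, mem_insert, mem_singleton]
    constructor
    · rintro (h | h)
      · left; rw [h]
      · right; rw [h]
    · rintro (h | h)
      · left; exact Subtype.ext h
      · right; exact Subtype.ext h
  have hSD : ∀ p : Nat.Primes, p ∈ S → ¬ ((p : ℕ) : ℤ) ∣ D ∧ (p : ℕ).Coprime q ∧ (p : ℕ) ∣ 14 := by
    intro p hp
    have h14 : (p : ℕ) ∣ 14 := by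
      rcases (hmemS p).1 hp with h | h <;> rw [h] <;> norm_num
    refine ⟨fun h => ?_, ?_, h14⟩
    · have h1 : (p : ℕ) ∣ d := by rw [← hD]; exact Int.natCast_dvd.1 h
      exact (hd p p.2 h1).1 (dvd_mul_of_dvd_left h14 _)
    · exact (Nat.Coprime.coprime_dvd_right h14 hK.hco).symm
  have h14S : ∀ p : Nat.Primes, (p : ℕ) ∣ 14 → p ∈ S := by
    intro p hp
    rw [hmemS]
    have h1 : (p : ℕ) ∣ 2 * 7 := by simpa using hp
    rcases (Nat.Prime.dvd_mul p.2).1 h1 with h | h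
    · exact Or.inl ((Nat.prime_dvd_prime_iff_eq p.2 Nat.prime_two).1 h)
    · exact Or.inr ((Nat.prime_dvd_prime_iff_eq p.2 (by norm_num)).1 h)
  -- the values of the primitive characters
  have hprim : ∀ (i : Fin g) (p : Nat.Primes),
      (XX δ (χ i)).primitiveCharacter ((p : ℕ) : ZMod (XX δ (χ i)).conductor) =
      (kr D p : ℂ) * (χ i).primitiveCharacter ((p : ℕ) : ZMod (χ i).conductor) := by
    intro i p
    have h3 := (hPR q d hqd (χ i) δ hδp).2 p p.2
    rw [← hδk p p.2]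
    exact h3
  set H : ℂ → ℂ := fun z => (∏ i, G (XX δ (χ i)) z) *
    ∏ p ∈ S, ∏ i, (1 - (aD D p : ℂ) * χ i ((p : ℕ) : ZMod q) * ((p : ℕ) : ℂ) ^ (-z)) with hH'
  have hnz : ∀ z : ℂ, 0 < z.re → ∀ p ∈ S,
      ∏ i, (1 - (aD D p : ℂ) * χ i ((p : ℕ) : ZMod q) * ((p : ℕ) : ℂ) ^ (-z)) ≠ 0 := by
    intro z hz p hp
    refine prod_ne_zero_iff.2 fun i _ => ?_
    exact fac_ne hD4 ((hmemS p).1 hp) (hSD p hp).1 hz
  refine ⟨H, ?_, ?_, ?_, ?_⟩
  · -- differentiability
    refine (Differentiable.fun_finsetProd fun i _ => (hG _).1).mul ?_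
    refine Differentiable.fun_finsetProd fun p _ => Differentiable.fun_finsetProd fun i _ => ?_
    have hp0 : ((p : ℕ) : ℂ) ≠ 0 := by exact_mod_cast p.2.ne_zero
    have h1 : Differentiable ℂ (fun s : ℂ => ((p : ℕ) : ℂ) ^ (-s)) := by
      have : (fun s : ℂ => ((p : ℕ) : ℂ) ^ (-s)) =
          fun s => Complex.exp (Complex.log (p : ℕ) * (-s)) := by
        funext s
        rw [Complex.cpow_def_of_ne_zero hp0]
      rw [this]
      fun_prop
    exact (differentiable_const _).sub (h1.const_mul _)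
  · -- the Euler product
    intro z hz
    have h1 : HasProd (fun p : Nat.Primes => ∏ i : Fin g,
        (1 - (ap E14 p : ℂ) * (XX δ (χ i)).primitiveCharacter p * (p : ℂ) ^ (-z) +
          (if (p : ℕ) ∣ 14 then 0 else (p : ℂ)) * ((XX δ (χ i)).primitiveCharacter p) ^ 2 *
            (p : ℂ) ^ (-2 * z))⁻¹) (∏ i, G (XX δ (χ i)) z) :=
      hasProd_prod fun i _ => (hG (XX δ (χ i))).2.1 z hz
    have h2 : HasProd (fun p : Nat.Primes => if p ∈ S then
        ∏ i, (1 - (aD D p : ℂ) * χ i ((p : ℕ) : ZMod q) * ((p : ℕ) : ℂ) ^ (-z)) else 1)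
        (∏ p ∈ S, ∏ i, (1 - (aD D p : ℂ) * χ i ((p : ℕ) : ZMod q) * ((p : ℕ) : ℂ) ^ (-z))) := by
      have h4 := hasProd_prod_of_ne_finset_one (L := SummationFilter.unconditional Nat.Primes)
        (f := fun p : Nat.Primes => if p ∈ S then
        ∏ i, (1 - (aD D p : ℂ) * χ i ((p : ℕ) : ZMod q) * ((p : ℕ) : ℂ) ^ (-z)) else 1) (s := S)
        (fun p hp => if_neg hp)
      rw [Finset.prod_congr rfl fun p hp => if_pos hp] at h4
      exact h4
    refine (h1.mul h2).congr_fun fun p => ?_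
    have hp0 : ((p : ℕ) : ℂ) ≠ 0 := by exact_mod_cast p.2.ne_zero
    have e1 : ((p : ℕ) : ℂ) ^ (-2 * z) = (((p : ℕ) : ℂ) ^ (-z)) ^ 2 := by
      rw [← Complex.cpow_nat_mul]
      congr 1
      push_cast
      ring
    have hdvd : ((p : ℕ) : ℤ) ∣ q * (WM D).Δ ↔ (p : ℕ) ∣ q ∨ p ∈ S ∨ ((p : ℕ) : ℤ) ∣ D := by
      have hpi := Nat.prime_iff_prime_int.1 p.2
      rw [hpi.dvd_mul, wm_disc hD4, dvd_neg, hpi.dvd_mul, hpi.dvd_mul]
      refine or_congr ?_ (or_congr ?_ ?_)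
      · exact Int.natCast_dvd_natCast
      · rw [hmemS]
        refine or_congr ?_ ?_
        · constructor
          · intro h
            exact (Nat.prime_dvd_prime_iff_eq p.2 Nat.prime_two).1
              (by exact_mod_cast hpi.dvd_of_dvd_pow h)
          · intro h
            rw [h]; norm_num
        · constructor
          · intro h
            exact (Nat.prime_dvd_prime_iff_eq p.2 (by norm_num)).1
              (by exact_mod_cast hpi.dvd_of_dvd_pow h)
          · intro h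
            rw [h]; norm_num
      · exact ⟨fun h => hpi.dvd_of_dvd_pow h, fun h => dvd_pow h (by norm_num)⟩
    have haD := aD_eq hD4 p.2
    by_cases hpS : p ∈ S
    · -- two and seven
      obtain ⟨hpD, hpq, hp14⟩ := hSD p hpS
      rw [if_pos (hdvd.2 (Or.inr (Or.inl hpS))), if_pos hpS]
      have h5 : ∏ i : Fin g, (1 - (ap E14 p : ℂ) * (XX δ (χ i)).primitiveCharacter p *
          (p : ℂ) ^ (-z) + (if (p : ℕ) ∣ 14 then 0 else (p : ℂ)) *
            ((XX δ (χ i)).primitiveCharacter p) ^ 2 * (p : ℂ) ^ (-2 * z))⁻¹ =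
          (∏ i, (1 - (aD D p : ℂ) * χ i ((p : ℕ) : ZMod q) * ((p : ℕ) : ℂ) ^ (-z)))⁻¹ := by
        rw [← Finset.prod_inv_distrib]
        refine prod_congr rfl fun i _ => ?_
        rw [hprim, prim_cop _ hpq, if_pos hp14, haD]
        push_cast
        congr 1
        ring
      rw [h5]
      exact (inv_mul_cancel₀ (hnz z (by linarith) p hpS)).symm
    · have hp14 : ¬ (p : ℕ) ∣ 14 := fun h => hpS (h14S p h)
      rw [if_neg hpS, mul_one]
      by_cases hpq : (p : ℕ) ∣ q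
      · rw [if_pos (hdvd.2 (Or.inl hpq))]
        symm
        refine prod_eq_one fun i _ => ?_
        rw [hprim, prim_dvd hqp (hχ1 i) p.2 hpq]
        ring_nf
      · by_cases hpD : ((p : ℕ) : ℤ) ∣ D
        · rw [if_pos (hdvd.2 (Or.inr (Or.inr hpD)))]
          symm
          refine prod_eq_one fun i _ => ?_
          rw [hprim, kr_zero hD4 p.2 hpD]
          push_cast
          ring_nf
        · rw [if_neg (fun h => by
            rcases hdvd.1 h with h | h | h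
            · exact hpq h
            · exact hpS h
            · exact hpD h)]
          have hpm : (p : ℕ).Coprime q := (Nat.Prime.coprime_iff_not_dvd p.2).2 hpq
          unfold EPol fr
          rw [dif_pos hpm, hdet, ← Finset.prod_inv_distrib]
          refine prod_congr rfl fun i _ => ?_
          rw [hprim, prim_cop _ hpm, if_neg hp14, ZMod.coe_unitOfCoprime, haD, e1]
          have h6 : (kr D p : ℂ) ^ 2 = 1 := by
            rcases kr_one p.2 hpD with h | h <;> rw [h] <;> norm_num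
          push_cast
          congr 1
          have h7 : cf q L K (ψ i) ((p : ℕ) : ZMod q) = χ i ((p : ℕ) : ZMod q) := rfl
          rw [h7]
          linear_combination (-(((p : ℕ) : ℂ) * χ i ((p : ℕ) : ZMod q) ^ 2 *
            (((p : ℕ) : ℂ) ^ (-z)) ^ 2)) * h6
  · -- the order
    apply analyticOrderAt_eq_zero.2
    right
    show (∏ i, G (XX δ (χ i)) 1) * _ ≠ 0
    refine mul_ne_zero ?_ (prod_ne_zero_iff.2 fun p hp => hnz 1 (by norm_num) p hp)
    rw [hval]
    refine mul_ne_zero (by exact_mod_cast hr0) ?_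
    have h1 : 0 < 2 * (if 0 < D then Op else Om) / √|(D : ℝ)| := by
      refine div_pos (mul_pos two_pos ?_) (Real.sqrt_pos.2 (abs_pos.2 (by exact_mod_cast hD0)))
      split_ifs
      · exact hSy.pos
      · exact hSy.pos'
    exact_mod_cast (pow_pos h1 g).ne'
  · refine ⟨r, hr0, hrv, ?_⟩
    show (∏ i, G (XX δ (χ i)) 1) * _ = _
    rw [hval, Complex.ofReal_mul, ← mul_assoc]
    congr 1
    -- the bad primes
    set T := (WM D).Δ.natAbs.primeFactors with hT
    have hmemT : ∀ p : ℕ, p ∈ T ↔ p.Prime ∧ (p = 2 ∨ p = 7 ∨ (p : ℤ) ∣ D) := by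
      intro p
      rw [hT, Nat.mem_primeFactors]
      constructor
      · rintro ⟨hp, h, -⟩
        refine ⟨hp, ?_⟩
        have hpi := Nat.prime_iff_prime_int.1 hp
        have h1 : (p : ℤ) ∣ (WM D).Δ := Int.natCast_dvd.2 h
        rw [wm_disc hD4, dvd_neg, hpi.dvd_mul, hpi.dvd_mul] at h1
        rcases h1 with (h1 | h1) | h1
        · left
          exact (Nat.prime_dvd_prime_iff_eq hp Nat.prime_two).1
            (by exact_mod_cast hpi.dvd_of_dvd_pow h1)
        · right; left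
          exact (Nat.prime_dvd_prime_iff_eq hp (by norm_num)).1
            (by exact_mod_cast hpi.dvd_of_dvd_pow h1)
        · right; right
          exact hpi.dvd_of_dvd_pow h1
      · rintro ⟨hp, h⟩
        refine ⟨hp, ?_, ?_⟩
        · apply Int.natCast_dvd.1
          rw [wm_disc hD4, dvd_neg]
          rcases h with rfl | rfl | h
          · refine dvd_mul_of_dvd_left (dvd_mul_of_dvd_left ?_ _) _
            norm_num
          · refine dvd_mul_of_dvd_left (dvd_mul_of_dvd_right ?_ _) _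
            norm_num
          · exact dvd_mul_of_dvd_right (dvd_pow h (by norm_num)) _
        · rw [Int.natAbs_ne_zero, wm_disc hD4]
          exact neg_ne_zero.2 (mul_ne_zero (by norm_num) (pow_ne_zero _ hD0))
    have h27 : ∏ p ∈ T, bd ρ D p = ∏ p ∈ ({2, 7} : Finset ℕ), bd ρ D p := by
      symm
      refine prod_subset ?_ ?_
      · intro p hp
        rw [mem_insert, mem_singleton] at hp
        rw [hmemT]
        rcases hp with rfl | rfl
        · exact ⟨Nat.prime_two, Or.inl rfl⟩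
        · exact ⟨by norm_num, Or.inr (Or.inl rfl)⟩
      · intro p hp hp'
        rw [mem_insert, mem_singleton, not_or] at hp'
        obtain ⟨hpp, h⟩ := (hmemT p).1 hp
        have hpD : (p : ℤ) ∣ D := by
          rcases h with h | h | h
          · exact absurd h hp'.1
          · exact absurd h hp'.2
          · exact h
        unfold bd
        rw [aD_eq hD4 hpp, kr_zero hD4 hpp hpD]
        simp
    have hSp : ∏ p ∈ S, ∏ i, (1 - (aD D p : ℂ) * χ i ((p : ℕ) : ZMod q) *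
        ((p : ℕ) : ℂ) ^ (-(1 : ℂ))) = ∏ p ∈ S, ((bd ρ D p : ℝ) : ℂ) := by
      refine prod_congr rfl fun p hp => ?_
      rw [bd_prod (L := L) (K := K) ρ hdet D (hSD p hp).2.1]
      refine prod_congr rfl fun i _ => ?_
      rw [Complex.cpow_neg_one]
      ring
    rw [hSp, h27]
    have hne27 : P2 ≠ P7 := by
      intro h
      have := congrArg (fun p : Nat.Primes => (p : ℕ)) h
      norm_num [hP2, hP7] at this
    rw [hS, prod_pair hne27, prod_pair (by norm_num)]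
    push_cast
    rfl

end main

end Pool.Agent.X218.OT
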