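import Pool.Agent.Y682.XT.UnitG

/-!
# The product of a stable family of character sums is an odd integer
-/

set_option autoImplicit false

open Polynomial Finset

namespace Pool.Agent.X218.OT

open Pool.Agent.Y682.XT (same_value)

section

variable {G : Type} [CommGroup G] [Fintype G]

/-- A family of nontrivial characters of a group of odd order which is stable, with multiplicities,
under the powers prime to the order; the sums are nonzero modulo the primes above two. -/
theorem unitF (hodd : Odd (Fintype.card G)) {n : ℕ} (ψ : Fin n → (G →* ℂˣ)) (hne : ∀ i, ψ i ≠ 1)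
    (hst : ∀ a : ℕ, a.Coprime (Fintype.card G) → ∃ π : Equiv.Perm (Fin n), ∀ i, ψ i ^ a = ψ (π i))
    (w : (G →* ℂˣ) → G → ℤ)
    (hw : ∀ χ (a : ℕ), a.Coprime (Fintype.card G) → w (χ ^ a) = w χ)
    (h2 : ∀ (k : Type) [Field k] [CharP k 2] (χ : G →* ℂˣ) (ψ : G →* k), χ ≠ 1 →
      (∀ g, ψ g = 1 ↔ χ g = 1) → ∑ g, ψ g * (w χ g : k) ≠ 0) :
    ∃ N : ℤ, Odd N ∧ ∏ i, ∑ g, ((ψ i g : ℂˣ) : ℂ) * (w (ψ i) g : ℂ) = N := by
  set m := Fintype.card G with hm
  have hpos : 0 < m := Fintype.card_pos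
  have hne' : NeZero m := ⟨hpos.ne'⟩
  obtain ⟨ζ, hζ⟩ : ∃ ζ : ℂ, IsPrimitiveRoot ζ m := ⟨_, Complex.isPrimitiveRoot_exp _ hpos.ne'⟩
  have hex : ∀ (χ : G →* ℂˣ) (g : G), ∃ e : ℕ, ζ ^ e = ((χ g : ℂˣ) : ℂ) := by
    intro χ g
    have h3 : ((χ g : ℂˣ) : ℂ) ^ m = 1 := by
      rw [← Units.val_pow_eq_pow_val, ← map_pow, hm, pow_card_eq_one, map_one, Units.val_one]
    obtain ⟨i, _, hi⟩ := hζ.eq_pow_of_pow_eq_one h3
    exact ⟨i, hi⟩
  choose e he using hex
  set P : ℤ[X] := ∏ i, ∑ g, C (w (ψ i) g) * X ^ (e (ψ i) g) with hP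
  set F : (G →* ℂˣ) → ℂ := fun χ => ∑ g, ((χ g : ℂˣ) : ℂ) * (w χ g : ℂ) with hF
  have hprod : ∏ i, ∑ g, ((ψ i g : ℂˣ) : ℂ) * (w (ψ i) g : ℂ) = ∏ i, F (ψ i) := rfl
  have hev : ∀ a : ℕ, a.Coprime m → aeval (ζ ^ a) P = ∏ i, F (ψ i) := by
    intro a ha
    obtain ⟨π, hπ⟩ := hst a ha
    rw [← Equiv.prod_comp π (fun i => F (ψ i)), hP, map_prod]
    refine prod_congr rfl fun i _ => ?_
    rw [← hπ i, map_sum]
    refine sum_congr rfl fun g _ => ?_
    rw [map_mul, map_pow, aeval_X, aeval_C, hw _ a ha, ← pow_mul, mul_comm a, pow_mul, he]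
    simp only [algebraMap_int_eq, eq_intCast, MonoidHom.pow_apply, Units.val_pow_eq_pow_val]
    ring
  have hev1 := hev 1 (Nat.coprime_one_left m)
  rw [pow_one] at hev1
  obtain ⟨N, hN1, hN2⟩ := same_value hpos hζ P (fun a ha => by rw [hev a ha, hev1])
  refine ⟨N, ?_, ?_⟩
  · have main : ∀ (k : Type) [Field k] [CharP k 2] (ω : k), (cyclotomic m k).IsRoot ω → Odd N := by
      intro k _ _ ω hω
      have hmk : ((m : ℕ) : k) ≠ 0 := by
        intro h
        rw [CharP.cast_eq_zero_iff k 2] at h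
        exact (Nat.not_even_iff_odd.2 hodd) (even_iff_two_dvd.2 h)
      have hmn : NeZero ((m : ℕ) : k) := ⟨hmk⟩
      have hωp : IsPrimitiveRoot ω m := (isRoot_cyclotomic_iff (n := m)).1 hω
      have hω0 : aeval ω (cyclotomic m ℤ) = 0 := by
        rw [aeval_def, eval₂_eq_eval_map, map_cyclotomic]
        exact hω
      have h3 := hN2 _ ω hω0
      have h4 : aeval ω P ≠ 0 := by
        rw [hP, map_prod]
        refine prod_ne_zero_iff.2 fun i _ => ?_
        have key : ∀ i j : ℕ, ζ ^ i = ζ ^ j → ω ^ i = ω ^ j := by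
          intro i j hij
          rw [(hζ.isOfFinOrder hpos.ne').pow_eq_pow_iff_modEq, ← hζ.eq_orderOf] at hij
          rw [(hωp.isOfFinOrder hpos.ne').pow_eq_pow_iff_modEq, ← hωp.eq_orderOf]
          exact hij
        set φ : G →* k :=
          { toFun := fun g => ω ^ e (ψ i) g
            map_one' := by
              show ω ^ e (ψ i) 1 = 1
              rw [← pow_zero ω]
              apply key
              rw [he, map_one, Units.val_one, pow_zero]
            map_mul' := by
              intro g h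
              show ω ^ e (ψ i) (g * h) = ω ^ e (ψ i) g * ω ^ e (ψ i) h
              rw [← pow_add]
              apply key
              rw [he, map_mul, Units.val_mul, pow_add, he, he] } with hφ
        have h5 := h2 _ (ψ i) φ (hne i) (by
          intro g
          show ω ^ e (ψ i) g = 1 ↔ _
          rw [hωp.pow_eq_one_iff_dvd, ← hζ.pow_eq_one_iff_dvd, he, Units.val_eq_one])
        intro h6
        apply h5
        rw [← h6, map_sum]
        refine sum_congr rfl fun g _ => ?_
        rw [map_mul, map_pow, aeval_X, aeval_C]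
        simp only [algebraMap_int_eq, eq_intCast]
        show ω ^ e (ψ i) g * _ = _
        ring
      rw [← Int.not_even_iff_odd]
      intro h5
      apply h4
      rw [h3]
      exact (CharP.intCast_eq_zero_iff k 2 N).2 (even_iff_two_dvd.1 h5)
    have hk2 : CharP (AlgebraicClosure (ZMod 2)) 2 :=
      charP_of_injective_algebraMap (algebraMap (ZMod 2) (AlgebraicClosure (ZMod 2))).injective 2
    obtain ⟨ω, hω⟩ := IsAlgClosed.exists_root (cyclotomic m (AlgebraicClosure (ZMod 2)))
      (by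
        rw [degree_cyclotomic]
        have := Nat.totient_pos.2 hpos
        exact_mod_cast this.ne')
    exact main _ ω hω
  · rw [hprod, ← hev1, hN1]

/-- Even functions have an even sum over a stable family. -/
theorem even_sum (hodd : Odd (Fintype.card G)) {n : ℕ} (ψ : Fin n → (G →* ℂˣ))
    (hne : ∀ i, ψ i ≠ 1)
    (hst : ∀ a : ℕ, a.Coprime (Fintype.card G) → ∃ π : Equiv.Perm (Fin n), ∀ i, ψ i ^ a = ψ (π i))
    (F : (G →* ℂˣ) → ℕ) (hF : ∀ χ, F χ⁻¹ = F χ) : Even (∑ i, F (ψ i)) := by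
  classical
  have : Finite (G →* ℂˣ) := inferInstance
  have : Fintype (G →* ℂˣ) := Fintype.ofFinite _
  set m := Fintype.card G with hm
  have hpos : 0 < m := Fintype.card_pos
  -- the inverse
  obtain ⟨π, hπ⟩ := hst (m - 1 + m * (m - 1) + (m - 1) * 0 + 0 + (m * 0)) (by
    have h1 : m - 1 + m * (m - 1) + (m - 1) * 0 + 0 + m * 0 = (m - 1) + m * (m - 1) := by ring
    rw [h1, Nat.coprime_add_mul_left_left]
    have h2 : (m - 1).Coprime (m - 1 + 1) := by simp
    rwa [Nat.sub_add_cancel hpos] at h2)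
  have hinv : ∀ i, (ψ i)⁻¹ = ψ (π i) := by
    intro i
    rw [← hπ i]
    refine MonoidHom.ext fun g => ?_
    rw [MonoidHom.inv_apply, MonoidHom.pow_apply, eq_comm, eq_inv_iff_mul_eq_one, ← pow_succ]
    have h1 : m - 1 + m * (m - 1) + (m - 1) * 0 + 0 + m * 0 + 1 = m * m := by
      obtain ⟨j, hj⟩ : ∃ j, m = j + 1 := ⟨m - 1, by omega⟩
      rw [hj]
      simp only [Nat.add_sub_cancel]
      ring
    rw [h1, pow_mul, ← map_pow, hm, pow_card_eq_one, map_one, one_pow]
  have hself : ∀ χ : G →* ℂˣ, χ⁻¹ = χ → χ = 1 := by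
    intro χ h
    refine MonoidHom.ext fun g => ?_
    have h1 : χ g ^ 2 = 1 := by
      have h2 := DFunLike.congr_fun h g
      rw [MonoidHom.inv_apply] at h2
      rw [pow_two]
      nth_rewrite 1 [← h2]
      exact inv_mul_cancel _
    have h3 : χ g ^ m = 1 := by rw [← map_pow, hm, pow_card_eq_one, map_one]
    obtain ⟨j, hj⟩ := hodd
    have h4 : χ g ^ (2 * j + 1) = 1 := by rw [← hj]; exact h3
    rw [pow_succ, pow_mul, h1, one_pow, one_mul] at h4
    rw [h4, MonoidHom.one_apply]
  have hcard : ∀ χ : G →* ℂˣ, (univ.filter fun i => ψ i = χ⁻¹).card =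
      (univ.filter fun i => ψ i = χ).card := by
    intro χ
    symm
    refine card_bij (fun i _ => π i) ?_ ?_ ?_
    · intro i hi
      rw [mem_filter] at hi ⊢
      exact ⟨mem_univ _, by rw [← hinv, hi.2]⟩
    · intro i _ j _ h
      exact π.injective h
    · intro j hj
      refine ⟨π.symm j, ?_, π.apply_symm_apply j⟩
      rw [mem_filter] at hj ⊢
      refine ⟨mem_univ _, ?_⟩
      have h1 := hinv (π.symm j)
      rw [Equiv.apply_symm_apply, hj.2] at h1
      exact inv_injective h1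
  have key : ((∑ i, F (ψ i) : ℕ) : ZMod 2) = 0 := by
    have h1 : ∑ i, F (ψ i) = ∑ χ : G →* ℂˣ, (univ.filter fun i => ψ i = χ).card * F χ := by
      rw [← sum_fiberwise (univ : Finset (Fin n)) ψ]
      refine sum_congr rfl fun χ _ => ?_
      rw [sum_congr rfl (fun i hi => by rw [(mem_filter.1 hi).2] :
        ∀ i ∈ univ.filter (fun i => ψ i = χ), F (ψ i) = F χ), sum_const, smul_eq_mul]
    rw [h1]
    push_cast
    refine sum_involution (fun χ _ => χ⁻¹) ?_ ?_ (fun _ _ => mem_univ _) (fun χ _ => inv_inv χ)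
    · intro χ _
      have h2 := hcard χ
      rw [hF χ]
      have h3 : (((univ.filter fun i => ψ i = χ⁻¹).card : ℕ) : ZMod 2) =
          ((univ.filter fun i => ψ i = χ).card : ℕ) := by rw [h2]
      rw [h3, ← two_mul]
      have h4 : (2 : ZMod 2) = 0 := rfl
      rw [h4, zero_mul]
    · intro χ _ h2 h3
      apply h2
      have h4 := hself χ h3
      have h5 : (univ.filter fun i => ψ i = χ) = ∅ := by
        rw [filter_eq_empty_iff]
        intro i _ h6
        exact hne i (h6.trans h4)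
      rw [h5]
      simp
  have h2 := (ZMod.natCast_eq_zero_iff _ 2).1 key
  exact even_iff_two_dvd.2 h2

end

end Pool.Agent.X218.OT
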