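import Pool.Agent.Y682.XF.ValB
import Pool.Agent.X218.OT.UnitF

/-!
# The product of the values over a stable family of characters
-/

set_option autoImplicit false
set_option linter.style.haveILetI false

open Finset NumberField IsCyclotomicExtension.Rat H300.HW

namespace Pool.Agent.X218.OT

open scoped Classical

open Pool.Agent.W97.MT (ap E14 II)

open Pool.Agent.Y687 (Symb Symb2)

open Pool.Agent.Y682.XT

open Pool.Agent.Y682.XD

open Pool.Agent.Y682.XF

section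

variable {q : ℕ} [NeZero q] {L : Type} [Field L] [NumberField L] [IsCyclotomicExtension {q} ℚ L]
  {K : IntermediateField ℚ L}

/-- **the product of the twisted sums over a stable family is an odd integer** -/
theorem prod_F (hH : S_HECKE) {s : ℚ → ℤ} {a : ℕ → ℤ} (hK : HypK s a q L K)
    {d : ℕ} (hd0 : d ≠ 0) (hdsq : Squarefree d)
    (hd : ∀ p : ℕ, p.Prime → p ∣ d → ¬ p ∣ 14 * q ∧ ∀ t : (ZMod q)ˣ, (t : ZMod q) = (p : ZMod q) →
      ∀ x : GG q L K, x ∈ Subgroup.zpowers (mkG q L K t))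
    (ε : (ZMod d)ˣ → ℤ) (hε : ∀ u, ε u = 1 ∨ ε u = -1) (τ : ℚ → ℤ) (c : ℤ)
    (hτ : ∀ r : ℚ, r.den.Coprime 14 → (2 : ℤ) ∣ τ r - s r - c)
    [Fintype (GG q L K)] {n : ℕ} (ψ : Fin n → (GG q L K →* ℂˣ)) (hne : ∀ i, ψ i ≠ 1)
    (hst : ∀ a : ℕ, a.Coprime (Fintype.card (GG q L K)) →
      ∃ π : Equiv.Perm (Fin n), ∀ i, ψ i ^ a = ψ (π i)) :
    ∃ N : ℤ, Odd N ∧ ∏ i,
      (haveI : NeZero ((cf q L K (ψ i)).conductor * d) :=
        ⟨mul_ne_zero (cf q L K (ψ i)).conductor_ne_zero hd0⟩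
      ∑ g, ((ψ i g : ℂˣ) : ℂ) * (wd L K (cf q L K (ψ i)).conductor_dvd_level ε τ g : ℂ)) = N := by
  refine unitF (card_odd hK.hodd) ψ hne hst (fun χ =>
    haveI : NeZero ((cf q L K χ).conductor * d) := ⟨mul_ne_zero (cf q L K χ).conductor_ne_zero hd0⟩
    wd L K (cf q L K χ).conductor_dvd_level ε τ) ?_ ?_
  · intro χ a ha
    have : NeZero ((cf q L K χ).conductor * d) := ⟨mul_ne_zero (cf q L K χ).conductor_ne_zero hd0⟩
    have : NeZero ((cf q L K (χ ^ a)).conductor * d) :=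
      ⟨mul_ne_zero (cf q L K (χ ^ a)).conductor_ne_zero hd0⟩
    apply wd_congr
    exact cond_pow χ ha
  · intro k _ _ χ ψ hχ hker
    have : NeZero (cf q L K χ).conductor := ⟨(cf q L K χ).conductor_ne_zero⟩
    have : NeZero ((cf q L K χ).conductor * d) := ⟨mul_ne_zero (cf q L K χ).conductor_ne_zero hd0⟩
    show ∑ g, ψ g * (wd L K (cf q L K χ).conductor_dvd_level ε τ g : k) ≠ 0
    rw [sum_wd]
    refine core2 hH hK (cf q L K χ).conductor_dvd_level hdsq hd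
      (fun u => ε (ZMod.unitsMap (dvd_mul_left d (cf q L K χ).conductor) u)) (fun u => hε _)
      (fun u => τ (((u : ZMod ((cf q L K χ).conductor * d)).val : ℚ) /
        (((cf q L K χ).conductor * d : ℕ) : ℚ))) c ?_ k χ ψ hχ hker rfl
    intro u
    apply hτ
    have hco : ((cf q L K χ).conductor * d).Coprime 14 := by
      refine Nat.Coprime.mul_left (Nat.Coprime.coprime_dvd_left
        (cf q L K χ).conductor_dvd_level hK.hco) ?_
      refine Nat.coprime_of_dvd ?_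
      intro p hp hpd hp14
      exact (hd p hp hpd).1 (dvd_mul_of_dvd_left hp14 _)
    refine Nat.Coprime.coprime_dvd_left ?_ hco
    have h4 := Rat.den_dvd ((u : ZMod ((cf q L K χ).conductor * d)).val : ℤ)
      (((cf q L K χ).conductor * d : ℕ) : ℤ)
    rw [Rat.divInt_eq_div, Int.cast_natCast, Int.cast_natCast] at h4
    exact Int.natCast_dvd_natCast.1 h4

end

/-- the product of the conductors of a stable family is an odd square -/
lemma cond_sq {q : ℕ} [NeZero q] {L : Type} [Field L] [NumberField L]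
    [IsCyclotomicExtension {q} ℚ L] {K : IntermediateField ℚ L} (hq : IsPrimePow q) (hqo : Odd q)
    [Fintype (GG q L K)] (hodd : Odd (Fintype.card (GG q L K))) {n : ℕ}
    (ψ : Fin n → (GG q L K →* ℂˣ)) (hne : ∀ i, ψ i ≠ 1)
    (hst : ∀ a : ℕ, a.Coprime (Fintype.card (GG q L K)) →
      ∃ π : Equiv.Perm (Fin n), ∀ i, ψ i ^ a = ψ (π i)) :
    ∃ j : ℕ, Odd j ∧ ∏ i, (cf q L K (ψ i)).conductor = j ^ 2 := by
  obtain ⟨l, k, hl, hk, rfl⟩ := hq
  have hlp := hl.nat_prime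
  have h1 : ∀ χ : GG (l ^ k) L K →* ℂˣ, ∃ e : ℕ, (cf (l ^ k) L K χ).conductor = l ^ e := by
    intro χ
    obtain ⟨e, -, he⟩ := (Nat.dvd_prime_pow hlp).1 (cf (l ^ k) L K χ).conductor_dvd_level
    exact ⟨e, he⟩
  choose e he using h1
  have h2 : ∀ χ, e χ⁻¹ = e χ := by
    intro χ
    apply Nat.pow_right_injective hlp.two_le
    show l ^ e χ⁻¹ = l ^ e χ
    rw [← he, ← he, cf_inv, DirichletCharacter.conductor_inv]
  obtain ⟨j, hj⟩ := even_sum hodd ψ hne hst e h2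
  refine ⟨l ^ j, ?_, ?_⟩
  · have : Odd l := (Nat.odd_pow_iff hk.ne').1 hqo
    exact this.pow
  · rw [prod_congr rfl fun i _ => he (ψ i), prod_pow_eq_pow_sum, hj, ← pow_mul, mul_two]

section

variable {q d : ℕ} [NeZero q] [NeZero d] [NeZero (q * d)] {L : Type} [Field L] [NumberField L]
  [IsCyclotomicExtension {q} ℚ L] {K : IntermediateField ℚ L}

/-- **the product of the central values over a stable family of nontrivial characters** -/
theorem val_F (hH : S_HECKE) (hPR : S_PRIM) {s t : ℚ → ℤ} {Op Om : ℝ} (hSy : Sy s t Op Om)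
    (hK : HypK s (fun l => ap E14 l) q L K) (hqp : IsPrimePow q) {D : ℤ}
    (hD : D.natAbs = d) (hdsq : Squarefree d)
    (hd : ∀ p : ℕ, p.Prime → p ∣ d → ¬ p ∣ 14 * q ∧ ∀ t : (ZMod q)ˣ, (t : ZMod q) = (p : ZMod q) →
      ∀ x : GG q L K, x ∈ Subgroup.zpowers (mkG q L K t))
    {δ : DirichletCharacter ℂ d} (hδp : δ.IsPrimitive)
    (hδ1 : δ (-1) = (if 0 < D then 1 else -1))
    (hδ : ∀ u : (ZMod d)ˣ, δ (u : ZMod d) = 1 ∨ δ (u : ZMod d) = -1)
    {G : DirichletCharacter ℂ (q * d) → ℂ → ℂ}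
    (hG : ∀ χ : DirichletCharacter ℂ (q * d),
      haveI : NeZero χ.conductor := ⟨χ.conductor_ne_zero⟩
      gaussSum (χ.primitiveCharacter)⁻¹ (ZMod.stdAddChar (N := χ.conductor)) * G χ 1 =
        ∑ u : (ZMod χ.conductor)ˣ, (χ.primitiveCharacter)⁻¹ (u : ZMod χ.conductor) *
          II (((u : ZMod χ.conductor).val : ℚ) / χ.conductor))
    [Fintype (GG q L K)] {n : ℕ} (ψ : Fin n → (GG q L K →* ℂˣ)) (hne : ∀ i, ψ i ≠ 1)
    (hst : ∀ a : ℕ, a.Coprime (Fintype.card (GG q L K)) →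
      ∃ π : Equiv.Perm (Fin n), ∀ i, ψ i ^ a = ψ (π i)) :
    ∃ ρ : ℚ, ρ ≠ 0 ∧ padicValRat 2 ρ = 0 ∧
      (∏ i, G (XX δ (cf q L K (ψ i))) 1) =
        (ρ : ℂ) * (((2 * (if 0 < D then Op else Om) / √|(D : ℝ)|) ^ n : ℝ) : ℂ) := by
  have hd0 : d ≠ 0 := NeZero.ne d
  have hδi : δ⁻¹ = δ := quad_inv hδ
  have hqd : q.Coprime d := by
    refine Nat.coprime_of_dvd ?_
    intro p hp hpq hpd
    exact (hd p hp hpd).1 (dvd_mul_of_dvd_right hpq _)
  have hd14 : d.Coprime 14 := by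
    refine Nat.coprime_of_dvd ?_
    intro p hp hpd hp14
    exact (hd p hp hpd).1 (dvd_mul_of_dvd_left hp14 _)
  have hdo : Odd d := by
    have : d.Coprime 2 := Nat.Coprime.coprime_dvd_right (by norm_num) hd14
    exact Nat.coprime_two_right.1 this
  have hev : Even n := by
    have h1 := even_sum (card_odd hK.hodd) ψ hne hst (fun _ => 1) (fun _ => rfl)
    simpa using h1
  -- the inverses
  obtain ⟨π, hπ⟩ : ∃ π : Equiv.Perm (Fin n), ∀ i, (ψ i)⁻¹ = ψ (π i) := by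
    have hpos : 0 < Fintype.card (GG q L K) := Fintype.card_pos
    obtain ⟨j, hj⟩ := card_odd hK.hodd (q := q) (L := L)
    obtain ⟨π, hπ⟩ := hst (Fintype.card (GG q L K) * 2 - 1) (by
      have h1 : (Fintype.card (GG q L K) * 2 - 1).Coprime (Fintype.card (GG q L K) * 2 - 1 + 1) := by
        simp
      rw [Nat.sub_add_cancel (by omega)] at h1
      exact Nat.Coprime.coprime_mul_right_right h1)
    refine ⟨π, fun i => ?_⟩
    rw [← hπ i]
    refine MonoidHom.ext fun g => ?_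
    rw [MonoidHom.inv_apply, MonoidHom.pow_apply, eq_comm, eq_inv_iff_mul_eq_one, ← pow_succ,
      Nat.sub_add_cancel (by omega), pow_mul, ← map_pow, pow_card_eq_one, map_one, one_pow]
  -- the sign character as an integral function
  set ε : (ZMod d)ˣ → ℤ := fun u => if δ (u : ZMod d) = 1 then 1 else -1 with hεdef
  have hε1 : ∀ u, ε u = 1 ∨ ε u = -1 := by
    intro u
    by_cases h : δ (u : ZMod d) = 1
    · exact Or.inl (if_pos h)
    · exact Or.inr (if_neg h)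
  have hε2 : ∀ u, (ε u : ℂ) = δ (u : ZMod d) := by
    intro u
    by_cases h : δ (u : ZMod d) = 1
    · have : ε u = 1 := if_pos h
      rw [this, h, Int.cast_one]
    · have : ε u = -1 := if_neg h
      rw [this]
      rcases hδ u with h1 | h1
      · exact absurd h1 h
      · rw [h1]; push_cast; rfl
  -- the symbol
  obtain ⟨τ, c, C, C', κ, hτ, hC, hκ, hCC, hval⟩ : ∃ (τ : ℚ → ℤ) (c : ℤ) (C : ℂ) (C' : ℝ) (κ : ℤ),
      (∀ r : ℚ, r.den.Coprime 14 → (2 : ℤ) ∣ τ r - s r - c) ∧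
      C' = 2 * (if 0 < D then Op else Om) / κ ∧ Odd κ ∧
      (∃ e : ℚ, (e = 1 ∨ e = -1) ∧ C ^ n =
        (e : ℂ) * ((C' ^ n : ℝ) : ℂ)) ∧
      ∀ (F : ℕ) [NeZero F], Odd F → 1 < F → F.Coprime 14 → ∀ ρ : DirichletCharacter ℂ F,
        ρ (-1) = (if 0 < D then 1 else -1) →
        ∑ u : (ZMod F)ˣ, ρ (u : ZMod F) * II (((u : ZMod F).val : ℚ) / F) =
          C * ∑ u ∈ PU F, ρ (u : ZMod F) * ((τ (((u : ZMod F).val : ℚ) / F) : ℤ) : ℂ) := by
    by_cases hDp : 0 < D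
    · refine ⟨s, 0, 2 * Op / 3, 2 * Op / 3, 3, fun r _ => by rw [sub_self, sub_zero]; exact dvd_zero _,
        by rw [if_pos hDp]; push_cast; rfl, by decide, ⟨1, Or.inl rfl, ?_⟩, ?_⟩
      · push_cast
        rw [one_mul]
      · intro F _ hFo hF1 _ ρ hρ
        rw [if_pos hDp] at hρ
        exact II_sum hSy.re hFo hF1 hρ
    · refine ⟨t, 1, 2 * Om * Complex.I, 2 * Om, 1, fun r hr => (hSy.im r hr).2,
        by rw [if_neg hDp]; push_cast; rw [div_one], by decide, ?_, ?_⟩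
      · obtain ⟨j, hj⟩ := hev
        refine ⟨(-1) ^ j, neg_one_pow_eq_or ℚ j, ?_⟩
        rw [mul_pow, hj]
        have h1 : Complex.I ^ (j + j) = (-1) ^ j := by
          rw [← two_mul, pow_mul, Complex.I_sq]
        rw [h1]
        push_cast
        ring
      · intro F _ hFo hF1 hF14 ρ hρ
        rw [if_neg hDp] at hρ
        refine II_sum_odd (t := t) (fun u => (hSy.im _ ?_).1) hFo hF1 hρ
        refine Nat.Coprime.coprime_dvd_left ?_ hF14
        have h4 := Rat.den_dvd ((u : ZMod F).val : ℤ) (F : ℤ)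
        rw [Rat.divInt_eq_div, Int.cast_natCast, Int.cast_natCast] at h4
        exact Int.natCast_dvd_natCast.1 h4
  obtain ⟨N, hNo, hprod⟩ := prod_F hH hK hd0 hdsq hd ε hε1 τ c hτ (fun i => (ψ i)⁻¹)
    (fun i => inv_ne (hne i)) (by
      intro a ha
      obtain ⟨π', hπ'⟩ := hst a ha
      refine ⟨π', fun i => ?_⟩
      rw [← hπ' i]
      refine MonoidHom.ext fun g => ?_
      rw [MonoidHom.pow_apply, MonoidHom.inv_apply, MonoidHom.inv_apply, MonoidHom.pow_apply,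
        inv_pow])
  -- the characters
  have hcond : ∀ ψ : GG q L K →* ℂˣ, (XX δ (cf q L K ψ)).conductor =
      (cf q L K ψ).conductor * d := fun ψ => (hPR q d hqd (cf q L K ψ) δ hδp).1
  have hpar : ∀ ψ : GG q L K →* ℂˣ, XX δ (cf q L K ψ) (-1) = (if 0 < D then 1 else -1) := by
    intro ψ
    rw [XX_neg, even_cf hK.hre ψ, one_mul, hδ1]
  have hσ : ((if 0 < D then 1 else -1 : ℂ) = 1 ∨ (if 0 < D then 1 else -1 : ℂ) = -1) := by
    by_cases h : 0 < D
    · left; exact if_pos h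
    · right; exact if_neg h
  have hother : ∀ i, gsi (XX δ (cf q L K (ψ i))) * G (XX δ (cf q L K (ψ i))) 1 = C *
      (haveI : NeZero ((cf q L K (ψ i)⁻¹).conductor * d) :=
        ⟨mul_ne_zero (cf q L K (ψ i)⁻¹).conductor_ne_zero hd0⟩
      ∑ g, ((((ψ i)⁻¹) g : ℂˣ) : ℂ) *
        (wd L K (cf q L K (ψ i)⁻¹).conductor_dvd_level ε τ g : ℂ)) := by
    intro i
    have : NeZero ((cf q L K (ψ i)⁻¹).conductor * d) :=
      ⟨mul_ne_zero (cf q L K (ψ i)⁻¹).conductor_ne_zero hd0⟩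
    have : NeZero ((cf q L K (ψ i)).conductor * d) :=
      ⟨mul_ne_zero (cf q L K (ψ i)).conductor_ne_zero hd0⟩
    have : NeZero (XX δ (cf q L K (ψ i))).conductor := ⟨(XX δ (cf q L K (ψ i))).conductor_ne_zero⟩
    have hne' : cf q L K (ψ i) ≠ 1 := fun h => (hne i) (cf_inj (h.trans cf_one.symm))
    have hf1 : 1 < (XX δ (cf q L K (ψ i))).conductor := by
      rw [hcond]
      have h2 : (cf q L K (ψ i)).conductor ≠ 1 := fun h =>
        hne' (((cf q L K (ψ i)).eq_one_iff_conductor_eq_one).2 h)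
      have h3 := (cf q L K (ψ i)).conductor_ne_zero
      exact lt_of_lt_of_le (by omega : 1 < (cf q L K (ψ i)).conductor)
        (Nat.le_mul_of_pos_right _ (Nat.pos_of_ne_zero hd0))
    have hfo : Odd (XX δ (cf q L K (ψ i))).conductor :=
      Odd.of_dvd_nat (hK.hq.mul hdo) (XX δ (cf q L K (ψ i))).conductor_dvd_level
    have hf14 : (XX δ (cf q L K (ψ i))).conductor.Coprime 14 :=
      Nat.Coprime.coprime_dvd_left (XX δ (cf q L K (ψ i))).conductor_dvd_level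
        (Nat.Coprime.mul_left hK.hco hd14)
    have h2 := hG (XX δ (cf q L K (ψ i)))
    rw [hval (XX δ (cf q L K (ψ i))).conductor hfo hf1 hf14
      ((XX δ (cf q L K (ψ i))).primitiveCharacter)⁻¹ (by
        rw [MulChar.inv_apply_eq_inv', prim_par, hpar]
        rcases hσ with h | h
        · rw [h, inv_one]
        · rw [h]; norm_num)] at h2
    rw [sum_X hε2 hδi (ψ i) τ (cf q L K (ψ i)).conductor_dvd_level rfl
      (XX δ (cf q L K (ψ i))).conductor
      (hcond (ψ i)) (XX δ (cf q L K (ψ i))).conductor_dvd_level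
      (XX δ (cf q L K (ψ i))).primitiveCharacter
      (XX δ (cf q L K (ψ i))).changeLevel_primitiveCharacter] at h2
    have h3 : wd L K (cf q L K (ψ i)⁻¹).conductor_dvd_level ε τ =
        wd L K (cf q L K (ψ i)).conductor_dvd_level ε τ := by
      apply wd_congr
      rw [cf_inv, DirichletCharacter.conductor_inv]
    show _ = C * ∑ g, ((((ψ i)⁻¹) g : ℂˣ) : ℂ) *
      (wd L K (cf q L K (ψ i)⁻¹).conductor_dvd_level ε τ g : ℂ)
    rw [h3]
    exact h2
  have hT : (∏ i, gsi (XX δ (cf q L K (ψ i)))) *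
      ∏ i, G (XX δ (cf q L K (ψ i))) 1 = C ^ n * N := by
    rw [← prod_mul_distrib, prod_congr rfl fun i _ => hother i, prod_mul_distrib, prod_const,
      card_univ, Fintype.card_fin]
    congr 1
  obtain ⟨j, hjo, hj⟩ := cond_sq hqp hK.hq (card_odd hK.hodd) ψ hne hst
  -- the square of the product of the Gauss sums
  have hT2 : (∏ i, gsi (XX δ (cf q L K (ψ i)))) ^ 2 = (j : ℂ) ^ 2 * (d : ℂ) ^ n := by
    have h1 : ∏ i, gsi (XX δ (cf q L K (ψ i))) = ∏ i, gs (XX δ (cf q L K (ψ i))) := by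
      rw [← Equiv.prod_comp π (fun i => gs (XX δ (cf q L K (ψ i))))]
      refine prod_congr rfl fun i _ => ?_
      rw [gsi_eq, XX_inv hδi, ← hπ i, cf_inv]
    have h2 : (∏ i, gsi (XX δ (cf q L K (ψ i)))) ^ 2 =
        ∏ i, (gs (XX δ (cf q L K (ψ i))) * gsi (XX δ (cf q L K (ψ i)))) := by
      rw [prod_mul_distrib, ← h1, pow_two]
    rw [h2, prod_congr rfl fun i _ => gs_mulS hσ (hpar (ψ i)), prod_mul_distrib, prod_const,
      card_univ, Fintype.card_fin]
    have h3 : (if 0 < D then 1 else -1 : ℂ) ^ n = 1 := by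
      rcases hσ with h | h
      · rw [h, one_pow]
      · rw [h, hev.neg_one_pow]
    rw [h3, one_mul]
    have h4 : ∀ i, (((XX δ (cf q L K (ψ i))).conductor : ℕ) : ℂ) =
        ((cf q L K (ψ i)).conductor : ℂ) * (d : ℂ) := by
      intro i
      rw [hcond]
      push_cast
      rfl
    rw [prod_congr rfl fun i _ => h4 i, prod_mul_distrib, prod_const, card_univ, Fintype.card_fin,
      ← Nat.cast_prod, hj]
    push_cast
    rfl
  set T : ℂ := ∏ i, gsi (XX δ (cf q L K (ψ i))) with hTdef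
  set PG : ℂ := ∏ i, G (XX δ (cf q L K (ψ i))) 1 with hPG
  have hsd : ((Real.sqrt d : ℝ) : ℂ) ^ 2 = (d : ℂ) := by
    rw [← Complex.ofReal_pow, Real.sq_sqrt (Nat.cast_nonneg _)]
    push_cast
    rfl
  have hj0 : (j : ℂ) ≠ 0 := by
    have : j ≠ 0 := by
      intro h0; rw [h0] at hjo; exact absurd hjo (by decide)
    exact_mod_cast this
  have hsd0 : Real.sqrt d ≠ 0 := by
    rw [Real.sqrt_ne_zero (Nat.cast_nonneg _)]
    exact_mod_cast hd0
  set Z : ℂ := (j : ℂ) * ((Real.sqrt d : ℝ) : ℂ) ^ n with hZ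
  obtain ⟨e1, he1, hTε⟩ : ∃ e : ℚ, (e = 1 ∨ e = -1) ∧ T = (e : ℂ) * Z := by
    have h2 : T ^ 2 = Z ^ 2 := by
      rw [hT2, hZ, mul_pow, ← pow_mul _ n 2, mul_comm n 2, pow_mul, hsd]
    rcases sq_eq_sq_iff_eq_or_eq_neg.1 h2 with h3 | h3
    · exact ⟨1, Or.inl rfl, by push_cast; rw [one_mul]; exact h3⟩
    · exact ⟨-1, Or.inr rfl, by push_cast; rw [neg_one_mul]; exact h3⟩
  obtain ⟨e2, he2, hCe⟩ := hCC
  have hκ0 : (κ : ℂ) ≠ 0 := by
    have : κ ≠ 0 := by
      intro h0; rw [h0] at hκ; exact absurd hκ (by decide)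
    exact_mod_cast this
  have hκ0' : (κ : ℝ) ≠ 0 := by
    have : κ ≠ 0 := by
      intro h0; rw [h0] at hκ; exact absurd hκ (by decide)
    exact_mod_cast this
  have he1' : (e1 : ℂ) * e1 = 1 := by
    rcases he1 with rfl | rfl <;> norm_num
  have he12 : e1 * e2 = 1 ∨ e1 * e2 = -1 := by
    rcases he1 with rfl | rfl <;> rcases he2 with rfl | rfl <;> norm_num
  have hB : Odd ((j : ℤ) * κ ^ n) := Odd.mul (by exact_mod_cast hjo) hκ.pow
  obtain ⟨hp1, hp2⟩ := padic_odd hNo hB he12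
  refine ⟨_, hp2, hp1, ?_⟩
  -- the computation
  have hDd : √|(D : ℝ)| = Real.sqrt d := by
    congr 1
    rw [← hD, Nat.cast_natAbs, Int.cast_abs]
  have h5 : PG * Z = (e1 : ℂ) * (e2 * ((C' ^ n : ℝ) : ℂ) * N) := by
    rw [hTε, hCe] at hT
    linear_combination (e1 : ℂ) * hT - Z * PG * he1'
  have h6 : ((C' ^ n : ℝ) : ℂ) * (κ : ℂ) ^ n =
      (((2 * (if 0 < D then Op else Om) / √|(D : ℝ)|) ^ n : ℝ) : ℂ) *
        ((Real.sqrt d : ℝ) : ℂ) ^ n := by
    have h7 : C' ^ n * (κ : ℝ) ^ n = (2 * (if 0 < D then Op else Om) / √|(D : ℝ)|) ^ n *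
        (Real.sqrt d) ^ n := by
      rw [← mul_pow, ← mul_pow, hC, hDd, div_mul_cancel₀ _ hκ0', div_mul_cancel₀ _ hsd0]
    have h8 := congrArg (fun x : ℝ => (x : ℂ)) h7
    push_cast at h8 ⊢
    exact h8
  set Om' : ℂ := (((2 * (if 0 < D then Op else Om) / √|(D : ℝ)|) ^ n : ℝ) : ℂ) with hOm'
  have hsdn : ((Real.sqrt d : ℝ) : ℂ) ^ n ≠ 0 := pow_ne_zero _ (by exact_mod_cast hsd0)
  have hκn : (κ : ℂ) ^ n ≠ 0 := pow_ne_zero _ hκ0
  have key : PG * ((j : ℂ) * (κ : ℂ) ^ n) * ((Real.sqrt d : ℝ) : ℂ) ^ n =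
      (e1 * e2) * N * Om' * ((Real.sqrt d : ℝ) : ℂ) ^ n := by
    rw [hZ] at h5
    linear_combination ((κ : ℂ) ^ n) * h5 + ((e1 : ℂ) * e2 * N) * h6
  have key2 := mul_right_cancel₀ hsdn key
  have hIκ : (j : ℂ) * (κ : ℂ) ^ n ≠ 0 := mul_ne_zero hj0 hκn
  apply mul_right_cancel₀ hIκ
  rw [key2]
  push_cast
  field_simp

end

end Pool.Agent.X218.OT
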